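import Pool.Agent.KS6_23.MM.D

/-!
MP_9ed304_an, Q1, with the exact rate: for every `n ≥ 3` the boundedness locus `M_n` and the
limiting cardioid `S_∞` are within Hausdorff distance `60/n`, and their Hausdorff distance is at
least `1/(10 n)`.
-/

set_option autoImplicit false

open Set Complex

namespace Pool.Agent.Results.MP_9ed304_an.ExactRate

/-- `|a|^{1/2n} e^{iψ/2n}`, `ψ` the principal argument of `a` -/
noncomputable def rootA (n : ℕ) (a : ℂ) : ℂ :=
  ((‖a‖ ^ (1 / (2 * (n : ℝ))) : ℝ) : ℂ) * exp (I * (arg a / (2 * n)))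

/-- the principal square root -/
noncomputable def sqrtA (a : ℂ) : ℂ := a ^ (1 / 2 : ℂ)

/-- `b = b_{n,0}(a)` -/
noncomputable def bA (n : ℕ) (a : ℂ) : ℂ := rootA n a - 2 * sqrtA a

/-- `r_{n,a}(z) = z^n + a/z^n + b` (for `z ≠ 0`) -/
noncomputable def rA (n : ℕ) (a z : ℂ) : ℂ := z ^ n + a / z ^ n + bA n a

/-- the free critical value `v_- = b - 2 √a` -/
noncomputable def vminus (n : ℕ) (a : ℂ) : ℂ := bA n a - 2 * sqrtA a

/-- the boundedness locus: the orbit of `v_-` never meets the pole `0` and is bounded -/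
def M (n : ℕ) : Set ℂ :=
  {a | a ≠ 0 ∧ (∀ j, (rA n a)^[j] (vminus n a) ≠ 0) ∧
    Bornology.IsBounded (range fun j => (rA n a)^[j] (vminus n a))}

/-- the limiting cardioid -/
def cardioid : Set ℂ :=
  {p | ∃ θ ∈ Icc (0 : ℝ) (2 * Real.pi), p = (1 + exp (θ * I)) ^ 2 / 16}

open Pool.Agent.KS6_23.MM

lemma rootA_eq {a : ℂ} (ha : a ≠ 0) (n : ℕ) : rootA n a = exp (log a / (2 * n)) := by
  rw [rootA, Real.rpow_def_of_pos (norm_pos_iff.2 ha), Complex.ofReal_exp, ← Complex.exp_add]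
  congr 1
  have : log a = (Real.log ‖a‖ : ℂ) + (arg a : ℂ) * I := rfl
  rw [this]
  push_cast
  ring

lemma sqrtA_eq {a : ℂ} (ha : a ≠ 0) : sqrtA a = exp (log a / 2) := by
  rw [sqrtA, Complex.cpow_def_of_ne_zero ha]
  congr 1
  ring

lemma sqrtA_sq {a : ℂ} (ha : a ≠ 0) : exp (log a / 2) ^ 2 = a := by
  rw [← Complex.exp_nat_mul]
  have : ((2 : ℕ) : ℂ) * (log a / 2) = log a := by push_cast; ring
  rw [this, Complex.exp_log ha]

lemma rA_eq {a : ℂ} (ha : a ≠ 0) (n : ℕ) :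
    rA n a = ff n (exp (log a / 2)) (exp (log a / (2 * n))) := by
  funext z
  rw [rA, ff, bA, rootA_eq ha, sqrtA_eq ha, sqrtA_sq ha]

lemma vminus_eq {a : ℂ} (ha : a ≠ 0) (n : ℕ) :
    vminus n a = exp (log a / (2 * n)) - 4 * exp (log a / 2) := by
  rw [vminus, bA, rootA_eq ha, sqrtA_eq ha]
  ring

lemma cardioid_mem {u : ℂ} (hu : ‖u‖ = 1) : (1 + u) ^ 2 / 16 ∈ cardioid := by
  have h1 : u = exp ((arg u : ℂ) * I) := by
    have := Complex.norm_mul_exp_arg_mul_I u
    rw [hu, Complex.ofReal_one, one_mul] at this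
    exact this.symm
  rcases le_or_gt 0 (arg u) with h | h
  · refine ⟨arg u, ⟨h, ?_⟩, ?_⟩
    · linarith [Complex.arg_le_pi u, Real.pi_pos]
    · rw [← h1]
  · refine ⟨arg u + 2 * Real.pi, ⟨?_, ?_⟩, ?_⟩
    · linarith [Complex.neg_pi_lt_arg u]
    · linarith
    · have h2 : exp (((arg u + 2 * Real.pi : ℝ) : ℂ) * I) = u := by
        have : ((arg u + 2 * Real.pi : ℝ) : ℂ) * I = (arg u : ℂ) * I + 2 * Real.pi * I := by
          push_cast; ring
        rw [this, Complex.exp_add, Complex.exp_two_pi_mul_I, mul_one, ← h1]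
      rw [h2]

lemma zero_mem_cardioid : (0 : ℂ) ∈ cardioid := by
  have := cardioid_mem (u := -1) (by simp)
  simpa using this

/-- `M_n` is near the cardioid -/
lemma part1 {n : ℕ} (hn : 3 ≤ n) {a : ℂ} (ha : a ∈ M n) : ∃ p ∈ cardioid, dist a p < 60 / n := by
  obtain ⟨ha0, hne, hb⟩ := ha
  have hn0 : (3:ℝ) ≤ n := by exact_mod_cast hn
  rw [rA_eq ha0, vminus_eq ha0] at hb
  have hv0 : exp (log a / (2 * n)) - 4 * exp (log a / 2) ≠ 0 := by
    have := hne 0
    rw [vminus_eq ha0] at this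
    exact this
  have hre : (log a).re = Real.log ‖a‖ := Complex.log_re a
  by_cases hlow : -Real.log n ≤ (log a).re
  · by_cases hup : (log a).re ≤ 2 * Real.log 2
    · have h1 := near_circle hn (ℓ := log a) (by
        rw [Complex.log_im, abs_le]
        exact ⟨by linarith [Complex.neg_pi_lt_arg a], Complex.arg_le_pi a⟩) hlow hup hv0 hb
      obtain ⟨u, hu, h2⟩ := near_cardioid hn hlow hup h1
      rw [Complex.exp_log ha0] at h2
      exact ⟨_, cardioid_mem hu, by rw [dist_eq_norm]; exact h2⟩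
    · exfalso
      push Not at hup
      set s : ℂ := exp (log a / 2) with hs
      set c : ℂ := exp (log a / (2 * n)) with hc
      have hsn : ‖s‖ = Real.exp ((log a).re / 2) := by
        rw [hs, Complex.norm_exp]
        congr 1
        have : log a / 2 = ((1 / 2 : ℝ) : ℂ) * log a := by push_cast; ring
        rw [this, Complex.re_ofReal_mul]
        ring
      have hcn : ‖c‖ = Real.exp ((log a).re / (2 * n)) := by
        rw [hc, Complex.norm_exp]
        congr 1
        have : log a / (2 * n) = ((1 / (2 * n) : ℝ) : ℂ) * log a := by push_cast; ring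
        rw [this, Complex.re_ofReal_mul]
        ring
      have hlog2 : 0 < Real.log 2 := Real.log_pos (by norm_num)
      have h2s : 2 ≤ ‖s‖ := by
        rw [hsn]
        calc (2:ℝ) = Real.exp (Real.log 2) := (Real.exp_log (by norm_num)).symm
          _ ≤ _ := Real.exp_le_exp.2 (by linarith)
      have hcs : ‖c‖ ≤ ‖s‖ := by
        rw [hsn, hcn]
        apply Real.exp_le_exp.2
        apply div_le_div_of_nonneg_left (by linarith) (by norm_num)
        linarith
      exact escape_large hn h2s hcs hb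
  · push Not at hlow
    refine ⟨0, zero_mem_cardioid, ?_⟩
    rw [dist_zero_right]
    have h1 : ‖a‖ < 1 / n := by
      rw [hre] at hlow
      have h2 : Real.log ‖a‖ < Real.log (1 / n) := by
        rw [one_div, Real.log_inv]; exact hlow
      exact (Real.log_lt_log_iff (norm_pos_iff.2 ha0) (by positivity)).1 h2
    have h3 : (1:ℝ) / n ≤ 60 / n := by
      apply div_le_div_of_nonneg_right (by norm_num) (by linarith)
    linarith

/-- membership of explicit parameters -/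
lemma mem_of_exp {n : ℕ} {ℓ : ℂ} (h1 : -Real.pi < ℓ.im) (h2 : ℓ.im ≤ Real.pi)
    (h : (∀ i, (ff n (exp (ℓ / 2)) (exp (ℓ / (2 * n))))^[i]
        (exp (ℓ / (2 * n)) - 4 * exp (ℓ / 2)) ≠ 0) ∧
      Bornology.IsBounded (range fun i => (ff n (exp (ℓ / 2)) (exp (ℓ / (2 * n))))^[i]
        (exp (ℓ / (2 * n)) - 4 * exp (ℓ / 2)))) : exp ℓ ∈ M n := by
  have ha : exp ℓ ≠ 0 := Complex.exp_ne_zero _
  have hl : log (exp ℓ) = ℓ := Complex.log_exp h1 h2
  refine ⟨ha, ?_, ?_⟩
  · rw [rA_eq ha, vminus_eq ha, hl]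
    exact h.1
  · rw [rA_eq ha, vminus_eq ha, hl]
    exact h.2

/-- the cardioid is near `M_n` -/
lemma part2 {n : ℕ} (hn : 3 ≤ n) {p : ℂ} (hp : p ∈ cardioid) : ∃ a ∈ M n, dist p a < 60 / n := by
  obtain ⟨θ, ⟨h0, h1⟩, rfl⟩ := hp
  have hn0 : (3:ℝ) ≤ n := by exact_mod_cast hn
  have hpi := Real.pi_pos
  obtain ⟨β, hβ0, hβ1, hβ⟩ : ∃ β : ℝ, 0 ≤ β ∧ β ≤ 2 * Real.pi ∧
      1 + exp ((θ : ℂ) * I) = 1 - exp ((β : ℂ) * I) := by
    rcases le_total θ Real.pi with h | h
    · refine ⟨θ + Real.pi, by linarith, by linarith, ?_⟩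
      have : ((θ + Real.pi : ℝ) : ℂ) * I = (θ : ℂ) * I + Real.pi * I := by push_cast; ring
      rw [this, Complex.exp_add, Complex.exp_pi_mul_I]
      ring
    · refine ⟨θ - Real.pi, by linarith, by linarith, ?_⟩
      have : ((θ - Real.pi : ℝ) : ℂ) * I = (θ : ℂ) * I + -(Real.pi * I) := by push_cast; ring
      rw [this, Complex.exp_add, Complex.exp_neg, Complex.exp_pi_mul_I]
      ring
  obtain ⟨j, hj1, hj2, hj3⟩ := ell_dense hn hβ0 hβ1
  refine ⟨exp (ell n j), ?_, ?_⟩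
  · have him := ell_im hn hj1 hj2
    exact mem_of_exp him.1 him.2.le (ell_dyn hn hj1 hj2)
  · rw [hβ, dist_eq_norm]
    have h2 : (8:ℝ) / n < 60 / n := by
      apply div_lt_div_of_pos_right (by norm_num) (by linarith)
    linarith

/-- the real parameter -/
lemma part3 {n : ℕ} (hn : 3 ≤ n) : ∃ a ∈ M n, ∀ p ∈ cardioid, 1 / (10 * (n : ℝ)) ≤ dist a p := by
  refine ⟨exp (ellr n : ℂ), ?_, ?_⟩
  · apply mem_of_exp
    · rw [Complex.ofReal_im]; linarith [Real.pi_pos]
    · rw [Complex.ofReal_im]; exact Real.pi_pos.le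
    · exact ellr_dyn hn
  · rintro p ⟨θ, -, rfl⟩
    obtain ⟨h1, h2⟩ := ellr_bounds hn
    rw [dist_eq_norm, ← Complex.ofReal_exp]
    exact h2.trans (real_dist h1 θ)

/-- **The boundedness loci converge to the cardioid with exact rate `1/n`.** -/
theorem result :
    (∀ n : ℕ, 3 ≤ n →
      M n ⊆ Metric.thickening (60 / n) cardioid ∧
      cardioid ⊆ Metric.thickening (60 / n) (M n) ∧
      (∃ a ∈ M n, ∀ p ∈ cardioid, 1 / (10 * (n : ℝ)) ≤ dist a p) ∧
      1 / (10 * (n : ℝ)) ≤ Metric.hausdorffDist (M n) cardioid ∧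
      Metric.hausdorffDist (M n) cardioid ≤ 60 / n) ∧
    (∀ ε : ℝ, 0 < ε → ∃ N : ℕ, 3 ≤ N ∧ ∀ n : ℕ, N ≤ n → M n ⊆ Metric.thickening ε cardioid) := by
  have key : ∀ n : ℕ, 3 ≤ n → M n ⊆ Metric.thickening (60 / n) cardioid := by
    intro n hn a ha
    obtain ⟨p, hp, h⟩ := part1 hn ha
    exact Metric.mem_thickening_iff.2 ⟨p, hp, h⟩
  have hcb : Bornology.IsBounded cardioid := by
    rw [isBounded_iff_forall_norm_le]
    refine ⟨1 / 4, ?_⟩
    rintro p ⟨θ, -, rfl⟩
    rw [norm_div, norm_pow]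
    have h1 : ‖1 + exp ((θ : ℂ) * I)‖ ≤ 2 := by
      refine (norm_add_le _ _).trans ?_
      rw [norm_one, Complex.norm_exp_ofReal_mul_I]
      norm_num
    have h2 : ‖(16:ℂ)‖ = 16 := by simp
    rw [h2]
    have h3 : ‖1 + exp ((θ : ℂ) * I)‖ ^ 2 ≤ 2 ^ 2 := pow_le_pow_left₀ (norm_nonneg _) h1 2
    linarith
  constructor
  · intro n hn
    have hn0 : (3:ℝ) ≤ n := by exact_mod_cast hn
    have hMb : Bornology.IsBounded (M n) := by
      obtain ⟨R, hR⟩ := hcb.exists_norm_le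
      rw [isBounded_iff_forall_norm_le]
      refine ⟨60 / n + R, fun a ha => ?_⟩
      obtain ⟨p, hp, h⟩ := part1 hn ha
      have h1 : ‖a‖ ≤ dist a p + ‖p‖ := by
        rw [dist_eq_norm]
        have := norm_add_le (a - p) p
        simpa using this
      linarith [hR p hp]
    obtain ⟨a, ha, hd⟩ := part3 hn
    have hfin : Metric.hausdorffEDist (M n) cardioid ≠ ⊤ :=
      Metric.hausdorffEDist_ne_top_of_nonempty_of_bounded ⟨a, ha⟩ ⟨0, zero_mem_cardioid⟩ hMb hcb
    refine ⟨key n hn, ?_, ⟨a, ha, hd⟩, ?_, ?_⟩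
    · intro p hp
      obtain ⟨b, hb, h⟩ := part2 hn hp
      exact Metric.mem_thickening_iff.2 ⟨b, hb, h⟩
    · have h1 := Metric.infDist_le_hausdorffDist_of_mem ha hfin
      have h2 : 1 / (10 * (n : ℝ)) ≤ Metric.infDist a cardioid := by
        rw [Metric.le_infDist ⟨0, zero_mem_cardioid⟩]
        intro p hp
        exact hd p hp
      exact h2.trans h1
    · apply Metric.hausdorffDist_le_of_mem_dist (by positivity)
      · intro x hx
        obtain ⟨p, hp, h⟩ := part1 hn hx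
        exact ⟨p, hp, h.le⟩
      · intro x hx
        obtain ⟨b, hb, h⟩ := part2 hn hx
        exact ⟨b, hb, h.le⟩
  · intro ε hε
    obtain ⟨N, hN⟩ := exists_nat_gt (60 / ε)
    refine ⟨max N 3, le_max_right _ _, fun n hn => ?_⟩
    have hn3 : 3 ≤ n := le_trans (le_max_right _ _) hn
    have hnN : (N:ℝ) ≤ n := by exact_mod_cast le_trans (le_max_left _ _) hn
    refine (key n hn3).trans (Metric.thickening_mono ?_ _)
    have hn0 : (0:ℝ) < n := by exact_mod_cast (by omega : 0 < n)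
    rw [div_le_iff₀ hn0]
    rw [div_lt_iff₀ hε] at hN
    nlinarith

end Pool.Agent.Results.MP_9ed304_an.ExactRate
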